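import Pool.Agent.H20.RT.Stmts

/-!
# Board `rt` (helper20), row STR: steering
-/

set_option autoImplicit false

namespace Pool.RT

/-- there is a wrap of length `K` with the digit counts `r` -/
def HasWrap (K : ℕ) (r : ℕ → ℕ) : Prop := ∃ P Q : ℕ, Wrap K P Q r

theorem wrap_congr {K P Q : ℕ} {r r' : ℕ → ℕ} (h : Wrap K P Q r)
    (e : ∀ d, 1 ≤ d → d ≤ 9 → r d = r' d) : Wrap K P Q r' := by
  refine ⟨h.1, h.2.1, ?_⟩
  intro l F hF d h1 h9
  rw [h.2.2 l F hF d h1 h9, e d h1 h9]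

theorem HasWrap.congr {K : ℕ} {r r' : ℕ → ℕ} (h : HasWrap K r)
    (e : ∀ d, 1 ≤ d → d ≤ 9 → r d = r' d) : HasWrap K r' := by
  obtain ⟨P, Q, h⟩ := h
  exact ⟨P, Q, wrap_congr h e⟩

theorem HasWrap.add (hc : WRCStmt) {K K' : ℕ} {r r' : ℕ → ℕ} (h : HasWrap K r)
    (h' : HasWrap K' r') : HasWrap (K + K') (fun d => r d + r' d) := by
  obtain ⟨P, Q, h⟩ := h
  obtain ⟨P', Q', h'⟩ := h'
  exact ⟨_, _, hc K P Q r K' P' Q' r' h h'⟩

theorem hasWrap_zero_len : HasWrap 0 (fun _ => 0) := by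
  refine ⟨0, 0, by norm_num, by norm_num, ?_⟩
  intro l F hF d h1 h9
  simp

theorem hasWrap_zeros (hc : WRCStmt) (hs : WRSStmt) (n : ℕ) : HasWrap n (fun _ => 0) := by
  induction n with
  | zero => exact hasWrap_zero_len
  | succ n ih => exact HasWrap.add hc ih ⟨0, 0, hs.1⟩

theorem hasWrap_gadgets (hc : WRCStmt) (hs : WRSStmt) (I : List ℕ)
    (hI : ∀ g ∈ I, 1 ≤ g ∧ g ≤ 9) :
    HasWrap (3 * I.length) (fun d => (I.map (fun g => gv g d)).sum) := by
  induction I with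
  | nil => exact hasWrap_zero_len
  | cons g I ih =>
    have h1 := ih (fun g' hg' => hI g' (List.mem_cons_of_mem _ hg'))
    obtain ⟨g1, g9⟩ := hI g List.mem_cons_self
    have h2 : HasWrap 3 (gv g) := ⟨_, _, hs.2.2 g g1 g9⟩
    have h3 := HasWrap.add hc h1 h2
    have e : 3 * (g :: I).length = 3 * I.length + 3 := by
      rw [List.length_cons]
      ring
    rw [e]
    refine h3.congr ?_
    intro d _ _
    rw [List.map_cons, List.sum_cons, add_comm]

theorem hasWrap_fillers (hc : WRCStmt) (hs : WRSStmt) (s : ℕ) (h1 : 1 ≤ s) (h9 : s ≤ 9)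
    (n : ℕ) : HasWrap (2 * n) (fun d => if d = s then 2 * n else 0) := by
  induction n with
  | zero =>
    refine hasWrap_zero_len.congr ?_
    intro d _ _
    simp
  | succ n ih =>
    have h2 : HasWrap 2 (fun d => if d = s then 2 else 0) := ⟨_, _, hs.2.1 s h1 h9⟩
    have h3 := HasWrap.add hc ih h2
    refine h3.congr ?_
    intro d _ _
    by_cases h : d = s
    · rw [if_pos h, if_pos h, if_pos h]
      ring
    · rw [if_neg h, if_neg h, if_neg h]

theorem hasWrap_all (hc : WRCStmt) (hs : WRSStmt) (q : ℕ → ℕ) :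
    HasWrap (2 * (q 1 + q 2 + q 3 + q 4 + q 5 + q 6 + q 7 + q 8 + q 9)) (fun d => 2 * q d) := by
  have f := fun s h1 h9 => hasWrap_fillers hc hs s h1 h9 (q s)
  have h := HasWrap.add hc (HasWrap.add hc (HasWrap.add hc (HasWrap.add hc (HasWrap.add hc
    (HasWrap.add hc (HasWrap.add hc (HasWrap.add hc (f 1 (by norm_num) (by norm_num))
    (f 2 (by norm_num) (by norm_num))) (f 3 (by norm_num) (by norm_num)))
    (f 4 (by norm_num) (by norm_num))) (f 5 (by norm_num) (by norm_num)))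
    (f 6 (by norm_num) (by norm_num))) (f 7 (by norm_num) (by norm_num)))
    (f 8 (by norm_num) (by norm_num))) (f 9 (by norm_num) (by norm_num))
  have e : 2 * q 1 + 2 * q 2 + 2 * q 3 + 2 * q 4 + 2 * q 5 + 2 * q 6 + 2 * q 7 + 2 * q 8 +
      2 * q 9 = 2 * (q 1 + q 2 + q 3 + q 4 + q 5 + q 6 + q 7 + q 8 + q 9) := by ring
  rw [e] at h
  refine h.congr ?_
  intro d h1 h9
  interval_cases d <;> simp

theorem STR_thm (hc : WRCStmt) (hs : WRSStmt) (hp : PTYStmt) : STRStmt := by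
  intro r hr K hK
  obtain ⟨I, q, hIl, hI, hq⟩ := hp r hr
  set q' : ℕ → ℕ := fun d => if d = 9 then q 9 - 1 else q d with hq'
  have h1 := hasWrap_gadgets hc hs I hI
  have h2 := hasWrap_all hc hs q'
  have e1 : q' 1 = q 1 := rfl
  have e2 : q' 2 = q 2 := rfl
  have e3 : q' 3 = q 3 := rfl
  have e4 : q' 4 = q 4 := rfl
  have e5 : q' 5 = q 5 := rfl
  have e6 : q' 6 = q 6 := rfl
  have e7 : q' 7 = q 7 := rfl
  have e8 : q' 8 = q 8 := rfl
  have e9 : q' 9 = q 9 - 1 := rfl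
  have g9 := (hq 9 (by norm_num) (by norm_num)).1
  have b : ∀ d, 1 ≤ d → d ≤ 9 → 2 * q d ≤ r d := by
    intro d h1 h9
    have := (hq d h1 h9).2
    omega
  have b1 := b 1 (by norm_num) (by norm_num)
  have b2 := b 2 (by norm_num) (by norm_num)
  have b3 := b 3 (by norm_num) (by norm_num)
  have b4 := b 4 (by norm_num) (by norm_num)
  have b5 := b 5 (by norm_num) (by norm_num)
  have b6 := b 6 (by norm_num) (by norm_num)
  have b7 := b 7 (by norm_num) (by norm_num)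
  have b8 := b 8 (by norm_num) (by norm_num)
  have b9 := b 9 (by norm_num) (by norm_num)
  obtain ⟨n, hn⟩ : ∃ n : ℕ, K = 3 * I.length +
      2 * (q' 1 + q' 2 + q' 3 + q' 4 + q' 5 + q' 6 + q' 7 + q' 8 + q' 9) + n + 2 := by
    refine ⟨K - (3 * I.length +
      2 * (q' 1 + q' 2 + q' 3 + q' 4 + q' 5 + q' 6 + q' 7 + q' 8 + q' 9) + 2), ?_⟩
    rw [e1, e2, e3, e4, e5, e6, e7, e8, e9]
    omega
  have h3 := HasWrap.add hc (HasWrap.add hc h1 h2) (hasWrap_zeros hc hs n)
  obtain ⟨P, Q, h3⟩ := h3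
  have h4 := hs.2.1 9 (by norm_num) (by norm_num)
  have h5 := hc _ P Q _ _ _ _ _ h3 h4
  rw [← hn] at h5
  refine ⟨_, _, wrap_congr h5 ?_, ?_⟩
  · intro d hd1 hd9
    have h := (hq d hd1 hd9).2
    by_cases hd : d = 9
    · subst hd
      simp only [if_true]
      rw [e9]
      omega
    · have e : q' d = q d := if_neg hd
      simp only [if_neg hd]
      rw [e]
      omega
  · set k := 3 * I.length +
      2 * (q' 1 + q' 2 + q' 3 + q' 4 + q' 5 + q' 6 + q' 7 + q' 8 + q' 9) + n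
    rw [hn, pow_add]
    have : 0 < 10 ^ k := by positivity
    nlinarith [Nat.zero_le P]

end Pool.RT
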